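import Pool.Agent.Q240.SD.Stm

/-!
# Project SD (helper240), job LO: the lower bound for the smoothed sum over the zeros
-/

set_option autoImplicit false

open Filter Topology Finset MeasureTheory

namespace Pool.Agent.Q285.SD

open Pool.Agent.Y23 (TT Fa N2 QQ Zt mu IsZ Lg)
open Pool.Agent.Q240.EW (Bump Ps)
open Pool.Agent.Q240.SD

/-- far Gaussians -/
lemma gauss_far {l a V t γ : ℝ} {w : ℂ} (hw : |w.re| ≤ 1 / 2) (hl1 : l ≤ 1) (hs : 2 ≤ l * a) (ha : 0 < a)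
    (hV : 16 ≤ l * (V - 1) ^ 2) (hV2 : 2 ≤ V) (ht : |t - γ| ≤ 1) (hw2 : V < |w.im - γ|) :
    ‖Complex.exp (((l * a : ℝ) : ℂ) * (w - t * Complex.I) ^ 2)‖ ≤
      Real.exp (-(7 * a)) * (1 / (1 + (w.im - t) ^ 2)) := by
  rw [Complex.norm_exp]
  have e : (((l * a : ℝ) : ℂ) * (w - t * Complex.I) ^ 2).re = l * a * (w.re ^ 2 - (w.im - t) ^ 2) := by
    rw [sq, Complex.re_ofReal_mul, Complex.mul_re]
    simp only [Complex.sub_re, Complex.sub_im, Complex.mul_re, Complex.mul_im, Complex.ofReal_re, Complex.ofReal_im,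
      Complex.I_re, Complex.I_im]
    ring
  rw [e]
  have hy : V - 1 ≤ |w.im - t| := by
    have h1 : |w.im - γ| ≤ |w.im - t| + |t - γ| := by
      have := abs_add_le (w.im - t) (t - γ)
      rwa [sub_add_sub_cancel] at this
    linarith
  have hy2 : (V - 1) ^ 2 ≤ (w.im - t) ^ 2 := by
    rw [← sq_abs (w.im - t)]
    exact pow_le_pow_left₀ (by linarith) hy 2
  have hla : 0 < l * a := by linarith
  have hl0 : 0 < l := by
    by_contra h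
    have := mul_nonpos_of_nonpos_of_nonneg (not_lt.1 h) ha.le
    linarith
  have hre : w.re ^ 2 ≤ 1 / 4 := by
    rw [← sq_abs]
    have := pow_le_pow_left₀ (abs_nonneg w.re) hw 2
    norm_num at this ⊢
    exact this
  have h1 : l * a * w.re ^ 2 ≤ a / 4 := by
    have h5 : l * a * w.re ^ 2 ≤ l * a * (1 / 4) := mul_le_mul_of_nonneg_left hre hla.le
    have h6 : l * a ≤ 1 * a := mul_le_mul_of_nonneg_right hl1 ha.le
    linarith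
  have h2 : 16 * a ≤ l * a * (w.im - t) ^ 2 := by
    have h5 : l * (V - 1) ^ 2 ≤ l * (w.im - t) ^ 2 := mul_le_mul_of_nonneg_left hy2 hl0.le
    have h6 : 16 * a ≤ l * (w.im - t) ^ 2 * a := mul_le_mul_of_nonneg_right (hV.trans h5) ha.le
    linarith
  have h3 : 2 * (w.im - t) ^ 2 ≤ l * a * (w.im - t) ^ 2 := mul_le_mul_of_nonneg_right hs (sq_nonneg _)
  have h4 : l * a * (w.re ^ 2 - (w.im - t) ^ 2) ≤ -(7 * a) + -((w.im - t) ^ 2) := by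
    rw [mul_sub]
    linarith
  refine (Real.exp_le_exp.2 h4).trans ?_
  rw [Real.exp_add]
  refine mul_le_mul_of_nonneg_left ?_ (Real.exp_pos _).le
  rw [Real.exp_neg, one_div]
  refine inv_anti₀ (by positivity) ?_
  have := Real.add_one_le_exp ((w.im - t) ^ 2)
  linarith

lemma norm_exp_div (M V : ℝ) (w : ℂ) :
    ‖Complex.exp ((M : ℂ) * w / ((V : ℂ) + 1))‖ = Real.exp (M / (V + 1) * w.re) := by
  have e : (M : ℂ) * w / ((V : ℂ) + 1) = ((M / (V + 1) : ℝ) : ℂ) * w := by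
    push_cast
    ring
  rw [Complex.norm_exp, e, Complex.re_ofReal_mul]

/-- the size of the interpolating function -/
lemma q_bound {a V δ x : ℝ} {M N : ℕ} {c : ℕ → ℂ} {w : ℂ} (hw : |w.re| ≤ 1 / 2) (hV : 2 ≤ V) (ha : 0 < a)
    (hδ : 0 < δ) (hδ1 : δ ≤ 1 / 2) (hx : 0 ≤ x)
    (h1 : ((M : ℝ) + N) / (V + 1) ≤ 2 * (1 - 2 * δ / 16) * a)
    (h2 : ∑ k ∈ Finset.range N, ‖c k‖ ≤ Real.exp (-(2 * a * (x - δ / 4)))) :
    ‖Complex.exp (M * w / (V + 1)) * ∑ k ∈ Finset.range N, c k * Complex.exp (k * w / (V + 1))‖ ≤ Real.exp (2 * a) := by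
  have hV1 : 0 < V + 1 := by linarith
  have hw1 : w.re ≤ 1 / 2 := (le_abs_self _).trans hw
  have h3 : ‖Complex.exp (M * w / (V + 1))‖ ≤ Real.exp ((M : ℝ) / (V + 1) * (1 / 2)) := by
    have := norm_exp_div (M : ℝ) V w
    push_cast at this
    rw [this]
    exact Real.exp_le_exp.2 (mul_le_mul_of_nonneg_left hw1 (by positivity))
  have h4 : ∀ k ∈ Finset.range N, ‖c k * Complex.exp (k * w / (V + 1))‖ ≤
      ‖c k‖ * Real.exp ((N : ℝ) / (V + 1) * (1 / 2)) := by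
    intro k hk
    have := norm_exp_div (k : ℝ) V w
    push_cast at this
    rw [norm_mul, this]
    refine mul_le_mul_of_nonneg_left (Real.exp_le_exp.2 ?_) (norm_nonneg _)
    have hkN : (k : ℝ) ≤ N := by exact_mod_cast (Finset.mem_range.1 hk).le
    calc (k : ℝ) / (V + 1) * w.re ≤ (k : ℝ) / (V + 1) * (1 / 2) := mul_le_mul_of_nonneg_left hw1 (by positivity)
      _ ≤ (N : ℝ) / (V + 1) * (1 / 2) :=
        mul_le_mul_of_nonneg_right (div_le_div_of_nonneg_right hkN hV1.le) (by norm_num)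
  have h5 : ‖∑ k ∈ Finset.range N, c k * Complex.exp (k * w / (V + 1))‖ ≤
      Real.exp (-(2 * a * (x - δ / 4))) * Real.exp ((N : ℝ) / (V + 1) * (1 / 2)) := by
    refine (norm_sum_le _ _).trans ((Finset.sum_le_sum h4).trans ?_)
    rw [← Finset.sum_mul]
    exact mul_le_mul_of_nonneg_right h2 (Real.exp_pos _).le
  rw [norm_mul]
  refine (mul_le_mul h3 h5 (norm_nonneg _) (Real.exp_pos _).le).trans ?_
  rw [← Real.exp_add, ← Real.exp_add, Real.exp_le_exp]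
  have h6 : (M : ℝ) / (V + 1) * (1 / 2) + (-(2 * a * (x - δ / 4)) + (N : ℝ) / (V + 1) * (1 / 2)) =
      (((M : ℝ) + N) / (V + 1)) * (1 / 2) - 2 * (a * x) + a * δ / 2 := by ring
  rw [h6]
  have h7 : 0 ≤ a * x := mul_nonneg ha.le hx
  have h8 : a * δ ≤ a * (1 / 2) := mul_le_mul_of_nonneg_left hδ1 ha.le
  have h9 : 0 ≤ a * δ := by positivity
  nlinarith

/-- the near and the far zeros -/
lemma split {ψ : ℝ → ℝ} {T l a V γ δ x t r : ℝ} {M N : ℕ} {c : ℕ → ℂ} {e0 : ℂ} {G : Finset Zt} {K : ℝ}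
    (hP : ∀ ρ : Zt, ‖Ps ψ (((ρ : ℂ) - 1 / 2) / T) ^ 2‖ ≤ 2)
    (hsum : ∀ u : ℝ, 0 ≤ u → Summable fun ρ : Zt => (mu ρ : ℝ) * ‖Ps ψ (((ρ : ℂ) - 1 / 2) / T) ^ 2 *
      Complex.exp (((l * a : ℝ) : ℂ) * (((ρ : ℂ) - 1 / 2) - t * Complex.I) ^ 2 + u * ((ρ : ℂ) - 1 / 2))‖)
    (hl1 : l ≤ 1) (hs : 2 ≤ l * a) (ha : 0 < a) (hlV : 16 ≤ l * (V - 1) ^ 2) (hV2 : 2 ≤ V) (ht : |t - γ| ≤ 1)
    (hδ : 0 < δ) (hδ1 : δ ≤ 1 / 2) (hx : 0 ≤ x)
    (h1 : ((M : ℝ) + N) / (V + 1) ≤ 2 * (1 - 2 * δ / 16) * a)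
    (h2 : ∑ k ∈ Finset.range N, ‖c k‖ ≤ Real.exp (-(2 * a * (x - δ / 4))))
    (hq : ∀ ρ : Zt, |(ρ : ℂ).im - γ| ≤ V → Complex.exp (M * ((ρ : ℂ) - 1 / 2) / (V + 1)) *
      ∑ k ∈ Finset.range N, c k * Complex.exp (k * ((ρ : ℂ) - 1 / 2) / (V + 1)) =
        if ‖Complex.exp (((ρ : ℂ) - 1 / 2) / (V + 1)) - e0‖ < r then 1 else 0)
    (hGm : ∀ ρ : Zt, ρ ∈ G ↔ |(ρ : ℂ).im - γ| ≤ V ∧ ‖Complex.exp (((ρ : ℂ) - 1 / 2) / (V + 1)) - e0‖ < r)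
    (hK : ∑' ρ : Zt, (mu ρ : ℝ) * (1 / (1 + ((ρ : ℂ).im - t) ^ 2)) ≤ K * Lg t) :
    ‖∑ ρ ∈ G, (mu ρ : ℂ) * (Ps ψ (((ρ : ℂ) - 1 / 2) / T) ^ 2 *
        Complex.exp (((l * a : ℝ) : ℂ) * (((ρ : ℂ) - 1 / 2) - t * Complex.I) ^ 2)) -
      ∑ k ∈ Finset.range N, c k * Sz ψ T (l * a) t (((M : ℝ) + k) / (V + 1))‖ ≤
      2 * Real.exp (-(5 * a)) * (K * Lg t) := by
  classical
  have hV1 : 0 < V + 1 := by linarith
  obtain ⟨E, hE⟩ : ∃ E : Zt → ℂ, ∀ ρ, E ρ = (mu ρ : ℂ) * (Ps ψ (((ρ : ℂ) - 1 / 2) / T) ^ 2 *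
        Complex.exp (((l * a : ℝ) : ℂ) * (((ρ : ℂ) - 1 / 2) - t * Complex.I) ^ 2)) := ⟨_, fun _ => rfl⟩
  obtain ⟨q, hqq⟩ : ∃ q : Zt → ℂ, ∀ ρ, q ρ = Complex.exp (M * ((ρ : ℂ) - 1 / 2) / (V + 1)) *
      ∑ k ∈ Finset.range N, c k * Complex.exp (k * ((ρ : ℂ) - 1 / 2) / (V + 1)) := ⟨_, fun _ => rfl⟩
  -- the terms
  have hterm : ∀ (k : ℕ) (ρ : Zt), (mu ρ : ℂ) * (Ps ψ (((ρ : ℂ) - 1 / 2) / T) ^ 2 *
      Complex.exp (((l * a : ℝ) : ℂ) * (((ρ : ℂ) - 1 / 2) - t * Complex.I) ^ 2 +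
        ((((M : ℝ) + k) / (V + 1) : ℝ) : ℂ) * ((ρ : ℂ) - 1 / 2))) =
      E ρ * (Complex.exp (M * ((ρ : ℂ) - 1 / 2) / (V + 1)) * Complex.exp (k * ((ρ : ℂ) - 1 / 2) / (V + 1))) := by
    intro k ρ
    have e : ((((M : ℝ) + k) / (V + 1) : ℝ) : ℂ) * ((ρ : ℂ) - 1 / 2) =
        M * ((ρ : ℂ) - 1 / 2) / (V + 1) + k * ((ρ : ℂ) - 1 / 2) / (V + 1) := by
      push_cast
      ring
    rw [hE, e, Complex.exp_add, Complex.exp_add]
    ring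
  have hsm : ∀ k : ℕ, Summable fun ρ : Zt =>
      E ρ * (Complex.exp (M * ((ρ : ℂ) - 1 / 2) / (V + 1)) * Complex.exp (k * ((ρ : ℂ) - 1 / 2) / (V + 1))) := by
    intro k
    have h3 := hsum (((M : ℝ) + k) / (V + 1)) (by positivity)
    refine Summable.of_norm (h3.congr fun ρ => ?_)
    rw [← hterm k ρ, norm_mul (mu ρ : ℂ), Complex.norm_natCast]
  have hSzk : ∀ k : ℕ, Sz ψ T (l * a) t (((M : ℝ) + k) / (V + 1)) = ∑' ρ : Zt,
      E ρ * (Complex.exp (M * ((ρ : ℂ) - 1 / 2) / (V + 1)) * Complex.exp (k * ((ρ : ℂ) - 1 / 2) / (V + 1))) := by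
    intro k
    unfold Sz
    exact tsum_congr fun ρ => hterm k ρ
  have hall : ∑ k ∈ Finset.range N, c k * Sz ψ T (l * a) t (((M : ℝ) + k) / (V + 1)) = ∑' ρ : Zt, E ρ * q ρ := by
    have h3 : ∀ k ∈ Finset.range N, c k * Sz ψ T (l * a) t (((M : ℝ) + k) / (V + 1)) = ∑' ρ : Zt,
      c k * (E ρ * (Complex.exp (M * ((ρ : ℂ) - 1 / 2) / (V + 1)) * Complex.exp (k * ((ρ : ℂ) - 1 / 2) / (V + 1)))) := by
      intro k _
      rw [hSzk k, tsum_mul_left]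
    rw [Finset.sum_congr rfl h3, ← Summable.tsum_finsetSum (fun k _ => (hsm k).mul_left (c k))]
    refine tsum_congr fun ρ => ?_
    rw [hqq, Finset.mul_sum, Finset.mul_sum]
    refine Finset.sum_congr rfl fun k _ => ?_
    ring
  have hallsm : Summable fun ρ : Zt => E ρ * q ρ := by
    have h3 : Summable fun ρ : Zt => ∑ k ∈ Finset.range N,
      c k * (E ρ * (Complex.exp (M * ((ρ : ℂ) - 1 / 2) / (V + 1)) * Complex.exp (k * ((ρ : ℂ) - 1 / 2) / (V + 1)))) :=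
      summable_sum fun k _ => (hsm k).mul_left (c k)
    refine h3.congr fun ρ => ?_
    rw [hqq, Finset.mul_sum, Finset.mul_sum]
    refine Finset.sum_congr rfl fun k _ => ?_
    ring
  have hGs : HasSum (fun ρ : Zt => if ρ ∈ G then E ρ else 0) (∑ ρ ∈ G, (if ρ ∈ G then E ρ else 0)) :=
    hasSum_sum_of_ne_finset_zero fun ρ hρ => if_neg hρ
  have hGe : ∑ ρ ∈ G, (if ρ ∈ G then E ρ else 0) = ∑ ρ ∈ G, E ρ :=
    Finset.sum_congr rfl fun ρ hρ => if_pos hρ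
  rw [hGe] at hGs
  have hdiff : HasSum (fun ρ : Zt => (if ρ ∈ G then E ρ else 0) - E ρ * q ρ)
      (∑ ρ ∈ G, E ρ - ∑' ρ : Zt, E ρ * q ρ) := hGs.sub hallsm.hasSum
  have hb : ∀ ρ : Zt, ‖(if ρ ∈ G then E ρ else 0) - E ρ * q ρ‖ ≤
      2 * Real.exp (-(5 * a)) * ((mu ρ : ℝ) * (1 / (1 + ((ρ : ℂ).im - t) ^ 2))) := by
    intro ρ
    have hpos : 0 ≤ 2 * Real.exp (-(5 * a)) * ((mu ρ : ℝ) * (1 / (1 + ((ρ : ℂ).im - t) ^ 2))) := by positivity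
    by_cases hw : |(ρ : ℂ).im - γ| ≤ V
    · have h3 := hq ρ hw
      rw [← hqq ρ] at h3
      by_cases hr : ‖Complex.exp (((ρ : ℂ) - 1 / 2) / (V + 1)) - e0‖ < r
      · rw [if_pos hr] at h3
        rw [if_pos ((hGm ρ).2 ⟨hw, hr⟩), h3, mul_one, sub_self, norm_zero]
        exact hpos
      · rw [if_neg hr] at h3
        rw [if_neg (fun h => hr ((hGm ρ).1 h).2), h3, mul_zero, sub_self, norm_zero]
        exact hpos
    · rw [if_neg (fun h => hw ((hGm ρ).1 h).1), zero_sub, norm_neg, norm_mul, hE, norm_mul, norm_mul,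
        Complex.norm_natCast]
      have him : ((ρ : ℂ) - 1 / 2).im = (ρ : ℂ).im := by simp
      have h4 := gauss_far (w := (ρ : ℂ) - 1 / 2) (Pool.Agent.Y23.half_re ρ) hl1 hs ha hlV hV2 ht
        (by rw [him]; exact not_le.1 hw)
      rw [him] at h4
      have h5 : ‖q ρ‖ ≤ Real.exp (2 * a) := by
        rw [hqq]
        exact q_bound (Pool.Agent.Y23.half_re ρ) hV2 ha hδ hδ1 hx h1 h2
      have hmu : (0 : ℝ) ≤ (mu ρ : ℝ) := Nat.cast_nonneg _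
      have h6 : ‖Ps ψ (((ρ : ℂ) - 1 / 2) / T) ^ 2‖ *
          ‖Complex.exp (((l * a : ℝ) : ℂ) * (((ρ : ℂ) - 1 / 2) - t * Complex.I) ^ 2)‖ ≤
          2 * (Real.exp (-(7 * a)) * (1 / (1 + ((ρ : ℂ).im - t) ^ 2))) :=
        mul_le_mul (hP ρ) h4 (norm_nonneg _) (by norm_num)
      have h7 : (mu ρ : ℝ) * (‖Ps ψ (((ρ : ℂ) - 1 / 2) / T) ^ 2‖ *
          ‖Complex.exp (((l * a : ℝ) : ℂ) * (((ρ : ℂ) - 1 / 2) - t * Complex.I) ^ 2)‖) ≤
          (mu ρ : ℝ) * (2 * (Real.exp (-(7 * a)) * (1 / (1 + ((ρ : ℂ).im - t) ^ 2)))) :=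
        mul_le_mul_of_nonneg_left h6 hmu
      refine (mul_le_mul h7 h5 (norm_nonneg _) (by positivity)).trans (le_of_eq ?_)
      have h8 : Real.exp (-(7 * a)) * Real.exp (2 * a) = Real.exp (-(5 * a)) := by
        rw [← Real.exp_add]
        congr 1
        ring
      rw [← h8]
      ring
  have hz := Pool.Agent.Y23.zsummable t
  have hEq : ∑ ρ ∈ G, (mu ρ : ℂ) * (Ps ψ (((ρ : ℂ) - 1 / 2) / T) ^ 2 *
        Complex.exp (((l * a : ℝ) : ℂ) * (((ρ : ℂ) - 1 / 2) - t * Complex.I) ^ 2)) = ∑ ρ ∈ G, E ρ :=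
    Finset.sum_congr rfl fun ρ _ => (hE ρ).symm
  rw [hEq, hall, ← hdiff.tsum_eq]
  refine (tsum_of_norm_bounded (hz.mul_left (2 * Real.exp (-(5 * a)))).hasSum hb).trans ?_
  rw [tsum_mul_left]
  exact mul_le_mul_of_nonneg_left hK (by positivity)

end Pool.Agent.Q285.SD
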